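import Pool.Agent.H46.PS.Tet
import Pool.Agent.H46.PR.Rte

/-!
# The rate of the position of the leaf, times of higher order
-/

set_option autoImplicit false

namespace Pool.PS46

open Finset Real
open Pool.Agent.H49.Ent Pool.Agent.H32.Dense Pool.STK Pool.OWN68 Pool.PR46
open Pool.BFL (Pb)

/-- **The pairs are along the slope**, from one inequality. -/
theorem alg_off {Ω Λ Γ 𝒟 : Type} [Fintype Ω] {p : Ω → ℝ} (hp : IsLaw p) {M MT K r : ℕ}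
    {σ : ℤ → ℤ → ℤ} (hM : 1 ≤ M)
    {L : Ω → Λ} {t : Ω → ℤ} {G : Ω → Γ} {D : Λ → 𝒟} {u n : Λ → ℤ → ℤ} {du dn : 𝒟 → ℝ}
    {ks : Λ → ℝ} (hd : Disp p M MT K σ L t G D u n du dn) {B W δ η₁ s₀ : ℝ} (hB : 0 < B)
    (hoff : Pb (glue p p G G) (Off W L D du dn ks) ≤ δ)
    (hal : Pb (glue p p G G) (fun w => |du (D (L w.2)) - du (D (L w.1))| < B) ≤ η₁)
    (hs : |s₀| * M + W ≤ r) (h2 : 2 * W * M / B ≤ r) :
    Pb (glue p p G G) (fun w => ¬ Alg M r B L D du dn (fun l => ks l + s₀) w) ≤ 2 * δ + η₁ := by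
  have h0 := hp.nonneg
  have hMr : (1 : ℝ) ≤ M := by exact_mod_cast hM
  have hM0 : (0 : ℝ) < M := by linarith
  have hP1 := P1_law hp G
  have hPn : ∀ w, 0 ≤ glue p p G G w := hP1.nonneg
  have hsw : Pb (glue p p G G) (fun w => Off W L D du dn ks w.swap) ≤ δ := by
    rw [← Pb_sym]
    exact hoff
  have g1 := Pb_imp2 hPn (E := fun w => ¬ Alg M r B L D du dn (fun l => ks l + s₀) w)
    (F := fun w => |du (D (L w.2)) - du (D (L w.1))| < B)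
    (H := fun w => Off W L D du dn ks w ∨ Off W L D du dn ks w.swap) fun w hw hbad => by
      by_contra hcon
      push Not at hcon
      obtain ⟨c1, c2, c3⟩ := hcon
      apply hbad
      obtain ⟨a1, a2, a3⟩ := P1_pos hp G hw
      obtain ⟨b1, -, -⟩ := hd.dis _ _ a1 a2 a3
      unfold Off at c2 c3
      have c2 := not_lt.mp c2
      have c3 := not_lt.mp c3
      have e3 : |(dn (D (L w.swap.2)) - dn (D (L w.swap.1))) -
          ks (L w.swap.2) * (du (D (L w.swap.2)) - du (D (L w.swap.1)))| =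
          |(dn (D (L w.2)) - dn (D (L w.1))) -
            ks (L w.1) * (du (D (L w.2)) - du (D (L w.1)))| := by
        show |(dn (D (L w.1)) - dn (D (L w.2))) -
          ks (L w.1) * (du (D (L w.1)) - du (D (L w.2)))| = _
        rw [← abs_neg]
        congr 1
        ring
      rw [e3] at c3
      refine ⟨c1, ?_, ?_⟩
      · have e : (dn (D (L w.2)) - dn (D (L w.1))) - (ks (L w.2) + s₀) *
            (du (D (L w.2)) - du (D (L w.1))) = ((dn (D (L w.2)) - dn (D (L w.1))) -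
            ks (L w.2) * (du (D (L w.2)) - du (D (L w.1)))) -
            s₀ * (du (D (L w.2)) - du (D (L w.1))) := by ring
        rw [e]
        refine (abs_sub _ _).trans ?_
        rw [abs_mul]
        have := mul_le_mul_of_nonneg_left b1 (abs_nonneg s₀)
        linarith
      · have e : (ks (L w.2) + s₀) - (ks (L w.1) + s₀) = ks (L w.2) - ks (L w.1) := by ring
        rw [e]
        have e5 : (ks (L w.2) - ks (L w.1)) * (du (D (L w.2)) - du (D (L w.1))) =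
            ((dn (D (L w.2)) - dn (D (L w.1))) -
              ks (L w.1) * (du (D (L w.2)) - du (D (L w.1)))) -
            ((dn (D (L w.2)) - dn (D (L w.1))) -
              ks (L w.2) * (du (D (L w.2)) - du (D (L w.1)))) := by ring
        have h5 : |ks (L w.2) - ks (L w.1)| * |du (D (L w.2)) - du (D (L w.1))| ≤ 2 * W := by
          rw [← abs_mul, e5]
          refine (abs_sub _ _).trans ?_
          linarith
        have h6 : |ks (L w.2) - ks (L w.1)| * B ≤ 2 * W :=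
          (mul_le_mul_of_nonneg_left c1 (abs_nonneg _)).trans h5
        have h7 : |ks (L w.2) - ks (L w.1)| ≤ 2 * W / B := by
          rw [le_div_iff₀ hB]
          exact h6
        have h8 := mul_le_mul_of_nonneg_right h7 hM0.le
        have e9 : 2 * W / B * M = 2 * W * M / B := by ring
        rw [e9] at h8
        exact h8.trans h2
  have g2 := Pb_imp2 hPn (E := fun w => Off W L D du dn ks w ∨ Off W L D du dn ks w.swap)
    (F := Off W L D du dn ks) (H := fun w => Off W L D du dn ks w.swap) fun w _ hw => hw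
  linarith

/-- **The rate of the leaf**, at explicit constants, on an event. -/
theorem rate_core {Ω Λ Γ 𝒜 ℰ 𝒞 𝒟 𝒩 : Type} [Fintype Ω] {p : Ω → ℝ} (hp : IsLaw p)
    {M MT K r : ℕ} {σ : ℤ → ℤ → ℤ} (hM : 1 ≤ M) (hr : 1 ≤ r) (hrM : r ≤ M)
    {L : Ω → Λ} {t : Ω → ℤ} {G : Ω → Γ} {A : Ω → 𝒜} {E : Ω → ℰ} {C : Λ → 𝒞}
    {D : Λ → 𝒟} {N : Λ → 𝒩} {u n : Λ → ℤ → ℤ} {du dn : 𝒟 → ℝ} {ks : Λ → ℝ}
    {e : ℝ} (he : 0 ≤ e) (hrec : Recs p M MT σ e L t G G C D N N)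
    (hd : Disp p M MT K σ L t G D u n du dn) {B η κ : ℝ} (hB : 0 < B)
    (hkb : ∀ ω, 0 < p ω → |ks (L ω)| ≤ κ) (hrK : (K : ℝ) * (2 + κ) ≤ r)
    (hgd : Pb (glue p p G G) (fun w => ¬ Alg M r B L D du dn ks w) ≤ η)
    {R : ℝ} (hR : 2 ≤ R) (hRη : R * η ≤ 1 / 2)
    (ac : ∀ ω ω', 0 < p ω → 0 < p ω' → A ω = A ω' → E ω = E ω' →
      t ω = t ω' ∧ C (L ω) = C (L ω'))
    (ca : ∀ ω ω', 0 < p ω → 0 < p ω' → t ω = t ω' → C (L ω) = C (L ω') →
      A ω = A ω' ∧ E ω = E ω')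
    (S : Ω → Prop) (hS : 1 / R ≤ Pb p S) {e₂ Um : ℝ} (he₂ : 0 ≤ e₂)
    (fm : CH p E A ≤ CH p E (FF L t A u n) + e₂)
    (kz : 𝒜 × (ℤ × ℤ) → ℤ)
    (hkz : ∀ ω, 0 < p ω → S ω → kq M r (ks (L ω)) = kz (FF L t A u n ω))
    (hnf : CH (cond p S True) (fun ω => n (L ω) (t ω)) (fun ω => ((n (L ω) (t ω) / (M : ℤ),
      u (L ω) (t ω)), (t ω, C (L ω)))) ≤ Um) :
    CH (cond p S True) (fun ω => (leaf M r L t u n ks ω).2) (fun ω =>
      ((u (L ω) (t ω) / (M : ℤ), n (L ω) (t ω) / (M : ℤ)), (kq M r (ks (L ω)), A ω))) ≤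
      Um + lsF M K B R η e + 2 * (R * (e₂ + Real.log 2)) + Real.log (4 * κ + 15) := by
  classical
  have h0 := hp.nonneg
  have hR0 : 0 < R := by linarith
  have hl2 : 0 ≤ Real.log 2 := Real.log_nonneg (by norm_num)
  have hl : 1 / R ≤ law p S True := by rw [Pool.NFD.Pb_law]; exact hS
  have hl0 : 0 < law p S True := lt_of_lt_of_le (by positivity) hl
  have hq : IsLaw (cond p S True) := ⟨cond_nonneg h0 S True, sum_cond p S hl0.ne'⟩
  have hqd : ∀ ω, cond p S True ω ≤ R * p ω := by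
    intro ω
    unfold Pool.Agent.H49.Ent.cond
    split_ifs
    · rw [div_le_iff₀ hl0]
      have h5 : 1 ≤ R * law p S True := by
        have := mul_le_mul_of_nonneg_left hl hR0.le
        rwa [mul_one_div_cancel hR0.ne'] at this
      have h6 := h0 ω
      nlinarith
    · exact mul_nonneg hR0.le (h0 ω)
  have hsup : ∀ ω, 0 < cond p S True ω → 0 < p ω ∧ S ω := fun ω hω => by
    have h1 := (cond_pos_iff h0 S True ω).mp hω
    exact ⟨h1.1, of_eq_true h1.2⟩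
  have hlf := leaf_t hp hM hr hrM he hrec hd hB hkb hrK hgd hR hRη hq hqd
  have hmi := mi_dens hp hq hR0 hqd E (FF L t A u n) A
    (fun ω ω' _ _ z => (Prod.ext_iff.mp z).1)
  have hmi2 : R * (CH p E A - CH p E (FF L t A u n) + Real.log 2) ≤ R * (e₂ + Real.log 2) :=
    mul_le_mul_of_nonneg_left (by linarith) hR0.le
  have hpos2 : 0 ≤ R * (e₂ + Real.log 2) := by positivity
  exact rate_tie (N := fun _ => ()) hq hM hr hrM (fun ω ω' hω hω' a b => by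
      obtain ⟨y1, y2⟩ := ac ω ω' (hsup ω hω).1 (hsup ω' hω').1 a b
      exact ⟨y1, y2, rfl⟩)
    (e₁ := lsF M K B R η e) hlf
    (fun ω ω' hω hω' a b _ => ca ω ω' (hsup ω hω).1 (hsup ω' hω').1 a b)
    (FE := CH (cond p S True) E A) (e₂ := R * (e₂ + Real.log 2)) (by linarith)
    (by linarith)
    (fun ω hω => hkb ω (hsup ω hω).1) kz (fun ω hω => hkz ω (hsup ω hω).1 (hsup ω hω).2) hnf

/-- The hypotheses for one law. -/
structure RateH {Ω Λ Γ 𝒜 ℰ 𝒞 𝒟 𝒩 : Type} [Fintype Ω] (p : Ω → ℝ) (M MT K Q : ℕ)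
    (σ : ℤ → ℤ → ℤ) (δ c₀ α B Um : ℝ) (L : Ω → Λ) (t : Ω → ℤ) (G : Ω → Γ) (A : Ω → 𝒜)
    (E : Ω → ℰ) (C : Λ → 𝒞) (D : Λ → 𝒟) (N : Λ → 𝒩) (u n : Λ → ℤ → ℤ)
    (du dn : 𝒟 → ℝ) (ks : Λ → ℝ) (kf : 𝒜 × (ℤ × ℤ) → ℝ) : Prop where
  rcs : Recs p M MT σ (δ * Q) L t G G C D N N
  dd : Disp p M MT K σ L t G D u n du dn
  al : ∀ S : Ω → Prop, c₀ ≤ Pb p S →
      α * Q ≤ CH (cond p S True) (fun ω => ⌊du (D (L ω)) / B⌋) G
  nf : ∀ S : Ω → Prop, c₀ ≤ Pb p S →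
    CH (cond p S True) (fun ω => n (L ω) (t ω)) (fun ω => ((n (L ω) (t ω) / (M : ℤ),
      u (L ω) (t ω)), (t ω, C (L ω)))) ≤ Um + δ * Q
  ac : ∀ ω ω', 0 < p ω → 0 < p ω' → A ω = A ω' → E ω = E ω' → t ω = t ω' ∧ C (L ω) = C (L ω')
  ca : ∀ ω ω', 0 < p ω → 0 < p ω' → t ω = t ω' → C (L ω) = C (L ω') → A ω = A ω' ∧ E ω = E ω'
  fm : CH p E A ≤ CH p E (FF L t A u n) + δ * Q
  kb : ∀ ω, 0 < p ω → |ks (L ω)| ≤ (2 : ℝ) ^ (δ * Q)
  off : Pb (glue p p G G) (Off ((2 : ℝ) ^ (δ * Q)) L D du dn ks) ≤ δ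
  kn : Pb p (fun ω => (2 : ℝ) ^ (δ * Q) ≤ |kf (FF L t A u n ω) - ks (L ω)| * M) ≤ δ

/-- **The rate of the position of the leaf.** -/
theorem rate_eps (K : ℕ) {ε c₁ : ℝ} (hε : 0 < ε) (hε1 : ε ≤ 1) (hc₁ : 0 < c₁)
    (hc₁1 : c₁ ≤ 1) : ∃ ε' : ℝ, 0 < ε' ∧ ∃ δ : ℝ, 0 < δ ∧ ∃ c₀ : ℝ, 0 < c₀ ∧ ∀ α : ℝ, 0 < α →
      ∃ Q₀ : ℕ, ∀ Q ≥ Q₀, ∀ M MT : ℕ, 1 ≤ M → M ≤ 2 ^ Q → 2 ^ Q ≤ M * M →
      ∀ σ : ℤ → ℤ → ℤ, ∀ B : ℝ, 0 < B →
      (M : ℝ) ≤ B * (2 : ℝ) ^ (ε' * Q) →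
      ∀ {Ω Λ Γ 𝒜 ℰ 𝒞 𝒟 𝒩 : Type} [Fintype Ω] {p : Ω → ℝ}, IsLaw p → ∀ {Um : ℝ}
      {L : Ω → Λ} {t : Ω → ℤ} {G : Ω → Γ} {A : Ω → 𝒜} {E : Ω → ℰ} {C : Λ → 𝒞}
      {D : Λ → 𝒟} {N : Λ → 𝒩} {u n : Λ → ℤ → ℤ} {du dn : 𝒟 → ℝ} {ks : Λ → ℝ}
      {kf : 𝒜 × (ℤ × ℤ) → ℝ},
      RateH p M MT K Q σ δ c₀ α B Um L t G A E C D N u n du dn ks kf →
      ∃ (r : ℕ) (s₀ : ℝ), 1 ≤ r ∧ r ≤ M ∧ (r : ℝ) ≤ (2 : ℝ) ^ (ε * Q) ∧ 0 ≤ s₀ ∧ s₀ * M ≤ r ∧
        Pb p (fun ω => kq M r (ks (L ω) + s₀) ≠ kq M r (kf (FF L t A u n ω) + s₀)) ≤ ε ∧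
        ∀ S : Ω → Prop, c₁ ≤ Pb p S →
          (∀ ω, S ω → kq M r (ks (L ω) + s₀) = kq M r (kf (FF L t A u n ω) + s₀)) →
          CH (cond p S True) (fun ω => (leaf M r L t u n (fun l => ks l + s₀) ω).2)
            (fun ω => ((u (L ω) (t ω) / (M : ℤ), n (L ω) (t ω) / (M : ℤ)),
              (kq M r (ks (L ω) + s₀), A ω))) ≤ Um + ε * Q := by
  obtain ⟨R, hR⟩ : ∃ R : ℝ, R = 2 / c₁ := ⟨_, rfl⟩
  have hR2 : 2 ≤ R := by rw [hR, le_div_iff₀ hc₁]; linarith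
  have hR1 : 1 ≤ R := by linarith
  have hR0 : 0 < R := by linarith
  have hRc : 1 / R ≤ c₁ := by
    rw [hR, one_div_div]
    linarith
  obtain ⟨ε₀, hε₀⟩ : ∃ ε₀ : ℝ, ε₀ = ε / 100 := ⟨_, rfl⟩
  have hε₀0 : 0 < ε₀ := by rw [hε₀]; positivity
  obtain ⟨m, hm⟩ : ∃ m : ℕ, m = ⌈4 / ε⌉₊ := ⟨_, rfl⟩
  have hmr : 4 / ε ≤ m := by rw [hm]; exact Nat.le_ceil _
  have hm0 : (0 : ℝ) < m := lt_of_lt_of_le (by positivity) hmr
  have hm1 : 1 ≤ m := by exact_mod_cast hm0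
  have hmε : 1 / (m : ℝ) ≤ ε / 4 := by
    rw [div_le_div_iff₀ hm0 (by norm_num)]
    rw [div_le_iff₀ hε] at hmr
    linarith
  obtain ⟨η, hη⟩ : ∃ η : ℝ, η = ε / (600 * R) := ⟨_, rfl⟩
  have hη0 : 0 < η := by rw [hη]; positivity
  have hηR : R * η = ε / 600 := by rw [hη]; field_simp
  have hηε : η ≤ ε / 600 := by
    have : η * 1 ≤ R * η := by nlinarith
    rw [hηR, mul_one] at this
    exact this
  obtain ⟨η₁, hη₁⟩ : ∃ η₁ : ℝ, η₁ = η / 4 := ⟨_, rfl⟩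
  have hη₁0 : 0 < η₁ := by rw [hη₁]; positivity
  obtain ⟨c₀, hc₀⟩ : ∃ c₀ : ℝ, c₀ = min (η₁ / 2) c₁ := ⟨_, rfl⟩
  have hc₀0 : 0 < c₀ := by
    rw [hc₀]
    exact lt_min (by positivity) hc₁
  have hca : c₀ ≤ η₁ / 2 := by rw [hc₀]; exact min_le_left _ _
  have hcb : c₀ ≤ c₁ := by rw [hc₀]; exact min_le_right _ _
  obtain ⟨δ, hδ⟩ : ∃ δ : ℝ, δ = min (min (η / 4) ε₀) (ε / (12000 * R)) := ⟨_, rfl⟩
  have hδ0 : 0 < δ := by
    rw [hδ]
    exact lt_min (lt_min (by positivity) hε₀0) (by positivity)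
  have hδa : δ ≤ η / 4 := by rw [hδ]; exact (min_le_left _ _).trans (min_le_left _ _)
  have hδb : δ ≤ ε₀ := by rw [hδ]; exact (min_le_left _ _).trans (min_le_right _ _)
  have hδf : R * δ ≤ ε / 12000 := by
    have g : δ ≤ ε / (12000 * R) := by rw [hδ]; exact min_le_right _ _
    rw [le_div_iff₀ (by positivity)] at g
    linarith
  have hK0 : (0 : ℝ) ≤ K := Nat.cast_nonneg K
  obtain ⟨c6, hc6⟩ : ∃ c6 : ℝ, c6 = 1 + (3 * R * Real.log 2 + Real.log (4 * K + 1) +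
    Real.log (7 + 4 * K) + Real.log 105) + 2 * (R * Real.log 2) + Real.log 23 := ⟨_, rfl⟩
  have hc60 : 0 ≤ c6 := by
    have g0 := Real.log_nonneg (by norm_num : (1 : ℝ) ≤ 2)
    have g1 := Real.log_nonneg (by linarith : (1 : ℝ) ≤ 4 * K + 1)
    have g2 := Real.log_nonneg (by linarith : (1 : ℝ) ≤ 7 + 4 * K)
    have g3 := Real.log_nonneg (by norm_num : (1 : ℝ) ≤ 105)
    have g4 := Real.log_nonneg (by norm_num : (1 : ℝ) ≤ 23)
    rw [hc6]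
    positivity
  refine ⟨ε₀, hε₀0, δ, hδ0, c₀, hc₀0, fun α hα => ⟨⌈2 * c6 / ε + (K + m + 10) / ε₀ + (|Real.log (6 / η₁)| + 1) / α⌉₊, ?_⟩⟩
  intro Q hQ M MT hM hMQ hMM σ B hB hBM Ω Λ Γ 𝒜 ℰ 𝒞 𝒟 𝒩 _ p hp Um L t G A E C D N u n
    du dn ks kf H
  have h0 := hp.nonneg
  have hQr : 2 * c6 / ε + (K + m + 10) / ε₀ + (|Real.log (6 / η₁)| + 1) / α ≤ Q :=
    (Nat.le_ceil _).trans (by exact_mod_cast hQ)
  have q1 : 0 ≤ 2 * c6 / ε := by positivity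
  have q2 : 0 ≤ ((K : ℝ) + m + 10) / ε₀ := by positivity
  have q3 : 0 ≤ (|Real.log (6 / η₁)| + 1) / α := by positivity
  have Q1 : 2 * c6 / ε ≤ Q := by linarith only [hQr, q1, q2, q3]
  have Q2 : ((K : ℝ) + m + 10) / ε₀ ≤ Q := by linarith only [hQr, q1, q2, q3]
  have Q3 : (|Real.log (6 / η₁)| + 1) / α ≤ Q := by linarith only [hQr, q1, q2, q3]
  rw [div_le_iff₀ (by positivity)] at Q1 Q2 Q3
  have hQ0 : (0 : ℝ) < Q := by
    by_contra h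
    push Not at h
    have := mul_nonpos_of_nonpos_of_nonneg h hε₀0.le
    linarith only [this, Q2, hK0, hm0]
  have hMr : (1 : ℝ) ≤ M := by exact_mod_cast hM
  have hM0 : (0 : ℝ) < M := by linarith only [hMr]
  have hδQ : (0 : ℝ) ≤ δ * Q := by positivity
  obtain ⟨r₀, z1, z2, z3, z4, z5, z6⟩ := rate_r (K := K) hM hMM hB hε hε1 hε₀ hm1 Q2 hBM hδ0.le hδb
  obtain ⟨r, hr⟩ : ∃ r : ℕ, r = 2 ^ r₀ := ⟨_, rfl⟩
  have hr1 : 1 ≤ r := by rw [hr]; exact Nat.one_le_two_pow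
  rw [← hr] at z1 z2 z3 z4 z5 z6
  have hr0 : (0 : ℝ) < r := by exact_mod_cast hr1
  have hrM : (r : ℝ) ≤ M := by exact_mod_cast z1
  have hW0 : (0 : ℝ) < (2 : ℝ) ^ (δ * Q) := by positivity
  obtain ⟨i, hi, hsh⟩ := shift_code hp hM hr1 hm1 L (FF L t A u n) ks kf hW0.le H.kn
  obtain ⟨s₀, hs₀⟩ : ∃ s₀ : ℝ, s₀ = (i : ℝ) / m * (r / M) := ⟨_, rfl⟩
  rw [← hs₀] at hsh
  have him : (i : ℝ) / m ≤ 1 - 1 / m := by
    have h1 : (i : ℝ) + 1 ≤ m := by exact_mod_cast hi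
    rw [div_le_iff₀ hm0, sub_mul, one_mul, one_div_mul_cancel hm0.ne']
    linarith only [h1]
  have him0 : 0 ≤ (i : ℝ) / m := by positivity
  have hs1 : 0 ≤ s₀ := by rw [hs₀]; positivity
  have hsM : s₀ * M = (i : ℝ) / m * r := by
    rw [hs₀]
    field_simp
  have hs2 : s₀ * M ≤ r - r / m := by
    rw [hsM]
    have := mul_le_mul_of_nonneg_right him hr0.le
    have e : (1 - 1 / (m : ℝ)) * r = r - r / m := by ring
    linarith only [this, e]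
  have hs3 : s₀ * M ≤ r := by
    have : 0 ≤ (r : ℝ) / m := by positivity
    linarith only [this, hs2]
  have hs4 : s₀ ≤ 1 := by
    have h1 : s₀ * M ≤ 1 * M := by linarith only [hs3, hrM]
    exact le_of_mul_le_mul_right h1 hM0
  -- alive
  have hal : Pb (glue p p G G) (fun w => |du (D (L w.2)) - du (D (L w.1))| < B) ≤ η₁ := by
    refine alive_Pb hp G (fun ω => du (D (L ω))) hB hη₁0 fun S hS => ?_
    refine lt_of_lt_of_le ?_ (H.al S (hca.trans hS))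
    have := le_abs_self (Real.log (6 / η₁))
    linarith only [this, Q3]
  have hgd := alg_off hp (r := r) (s₀ := s₀) hM H.dd hB H.off hal (by
    rw [abs_of_nonneg hs1]
    have h1 : (2 : ℝ) ^ (δ * Q) ≤ r / m := by
      rw [le_div_iff₀ hm0]
      linarith only [z3]
    linarith only [h1, hs2]) z4
  have hgd' : Pb (glue p p G G) (fun w => ¬ Alg M r B L D du dn (fun l => ks l + s₀) w) ≤ η :=
    hgd.trans (by linarith only [hδa, hη₁, hη0])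
  refine ⟨r, s₀, hr1, z1, z2, hs1, hs3, ?_, fun S hS hSk => ?_⟩
  · refine hsh.trans ?_
    have h1 : (2 : ℝ) ^ (δ * Q) / r ≤ ε / 16 := by
      have h2 : (2 : ℝ) ^ (δ * Q) / r ≤ 1 / (4 * m) := by
        rw [div_le_div_iff₀ hr0 (by positivity)]
        linarith only [z6]
      have h3 : 1 / (4 * (m : ℝ)) = 1 / m / 4 := by
        field_simp
      rw [h3] at h2
      linarith only [h2, hmε]
    linarith only [h1, hmε, hδa, hηε, hε]
  · have hkb' : ∀ ω, 0 < p ω → |ks (L ω) + s₀| ≤ (2 : ℝ) ^ (δ * Q) + 1 := fun ω hω =>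
      (abs_add_le _ _).trans (add_le_add (H.kb ω hω) (by rw [abs_of_nonneg hs1]; exact hs4))
    have key := rate_core hp hM hr1 z1 hδQ H.rcs H.dd hB hkb' z5 hgd' hR2
      (by rw [hηR]; linarith only [hε1]) H.ac H.ca S (hRc.trans hS) hδQ H.fm
      (fun φ => kq M r (kf φ + s₀)) (fun ω _ hS' => hSk ω hS') (H.nf S (hcb.trans hS))
    refine key.trans ?_
    have b1 := lsE_le (K := K) (δ := δ) hM hMQ hB hε₀ hε hε1 hBM hηR hδf
    have b2 : R * (δ * Q + Real.log 2) ≤ ε / 12000 * Q + R * Real.log 2 := by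
      have g1 := mul_le_mul_of_nonneg_right hδf hQ0.le
      linarith only [g1]
    have b3 : Real.log (4 * ((2 : ℝ) ^ (δ * Q) + 1) + 15) ≤ Real.log 23 + ε / 100 * Q := by
      have hW1 : (1 : ℝ) ≤ 2 ^ (δ * Q) := Real.one_le_rpow (by norm_num) hδQ
      have g1 : 4 * ((2 : ℝ) ^ (δ * Q) + 1) + 15 ≤ 23 * 2 ^ (δ * Q) := by linarith only [hW1]
      refine (Real.log_le_log (by positivity) g1).trans ?_
      rw [Real.log_mul (by norm_num) hW0.ne', Real.log_rpow (by norm_num)]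
      have g2 : Real.log 2 ≤ 1 := by
        have := Real.log_two_lt_d9
        linarith only [this]
      have g3 : δ * Q * Real.log 2 ≤ δ * Q * 1 := mul_le_mul_of_nonneg_left g2 hδQ
      have g4 := mul_le_mul_of_nonneg_right hδb hQ0.le
      rw [hε₀] at g4
      linarith only [g3, g4]
    have b4 := mul_le_mul_of_nonneg_right hδb hQ0.le
    rw [hε₀] at b4
    have b5 : 0 ≤ ε * Q := by positivity
    rw [hc6] at Q1
    linarith only [b1, b2, b3, b4, b5, Q1]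

end Pool.PS46
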