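import Pool.Agent.H46.PS.Sig
import Pool.Agent.H46.PR.Lf1

/-!
# The powers of the difference of two times

`sgm_sig`: `σ (τ, t) = ⌊M ((τ - t) / (2 MT)) ^ (i + 1)⌋` is a time of higher order.
-/

set_option autoImplicit false

namespace Pool.PS46

open Finset Real
open Pool.Agent.H49.Ent Pool.Agent.H32.Dense Pool.STK Pool.OWN68 Pool.PR46
open Pool.BFL (Pb)

theorem pow_sep_pos {c y y' : ℝ} (hc : 0 ≤ c) (h1 : c ≤ y') (h2 : y' ≤ y) (j : ℕ) :
    (y - y') * c ^ j ≤ y ^ (j + 1) - y' ^ (j + 1) := by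
  induction j with
  | zero => simp
  | succ j ih =>
    have e : y ^ (j + 1 + 1) - y' ^ (j + 1 + 1) =
        y * (y ^ (j + 1) - y' ^ (j + 1)) + (y - y') * y' ^ (j + 1) := by ring
    have hy : 0 ≤ y := by linarith
    have hy' : 0 ≤ y' := by linarith
    have g1 : y * ((y - y') * c ^ j) ≤ y * (y ^ (j + 1) - y' ^ (j + 1)) :=
      mul_le_mul_of_nonneg_left ih hy
    have g2 : 0 ≤ (y - y') * y' ^ (j + 1) := mul_nonneg (by linarith) (by positivity)
    have g3 : c * ((y - y') * c ^ j) ≤ y * ((y - y') * c ^ j) :=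
      mul_le_mul_of_nonneg_right (by linarith) (mul_nonneg (by linarith) (by positivity))
    have e2 : (y - y') * c ^ (j + 1) = c * ((y - y') * c ^ j) := by ring
    rw [e, e2]
    linarith

theorem pow_sep_pos' {c y y' : ℝ} (hc : 0 ≤ c) (h1 : c ≤ y) (h2 : c ≤ y') (j : ℕ) :
    |y - y'| * c ^ j ≤ |y ^ (j + 1) - y' ^ (j + 1)| := by
  rcases le_total y' y with h | h
  · have g := pow_sep_pos hc h2 h j
    rw [abs_of_nonneg (by linarith : 0 ≤ y - y')]
    exact g.trans (le_abs_self _)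
  · have g := pow_sep_pos hc h1 h j
    rw [abs_sub_comm y y', abs_sub_comm (y ^ (j + 1)), abs_of_nonneg (by linarith : 0 ≤ y' - y)]
    exact g.trans (le_abs_self _)

/-- Powers of numbers of one sign are far apart. -/
theorem pow_sep {c y y' : ℝ} (hc : 0 ≤ c) (h1 : c ≤ |y|) (h2 : c ≤ |y'|)
    (hs : (0 < y ∧ 0 < y') ∨ (y < 0 ∧ y' < 0)) (j : ℕ) :
    |y - y'| * c ^ j ≤ |y ^ (j + 1) - y' ^ (j + 1)| := by
  rcases hs with ⟨a, b⟩ | ⟨a, b⟩
  · rw [abs_of_pos a] at h1
    rw [abs_of_pos b] at h2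
    exact pow_sep_pos' hc h1 h2 j
  · rw [abs_of_neg a] at h1
    rw [abs_of_neg b] at h2
    have g := pow_sep_pos' hc h1 h2 j
    have e1 : |-y - -y'| = |y - y'| := by
      rw [← abs_neg (y - y')]
      congr 1
      ring
    have e2 : |(-y) ^ (j + 1) - (-y') ^ (j + 1)| = |y ^ (j + 1) - y' ^ (j + 1)| := by
      rw [neg_pow y, neg_pow y', ← mul_sub, abs_mul, abs_pow, abs_neg, abs_one, one_pow, one_mul]
    rw [e1, e2] at g
    exact g

/-- The shell of a difference. -/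
def kap (X : ℕ) (x : ℤ) : ℕ := Nat.log 2 (X / max x.natAbs 1)

theorem kap_lo {X : ℕ} (hX : 1 ≤ X) {x : ℤ} (hx : |x| ≤ (X : ℤ)) :
    (|(x : ℝ)|) * 2 ^ (kap X x) ≤ X ∧ (2 : ℝ) ^ (kap X x) ≤ X := by
  have hm1 : 1 ≤ max x.natAbs 1 := le_max_right _ _
  have hxn : x.natAbs ≤ X := by
    have := Int.abs_eq_natAbs x
    omega
  have hmX : max x.natAbs 1 ≤ X := max_le hxn hX
  have h0 : X / max x.natAbs 1 ≠ 0 := by
    have := Nat.div_pos hmX (by omega)
    omega
  have h1 : 2 ^ kap X x ≤ X / max x.natAbs 1 := Nat.pow_log_le_self 2 h0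
  have h2 : 2 ^ kap X x * max x.natAbs 1 ≤ X := (Nat.le_div_iff_mul_le (by omega)).mp h1
  have h3 : 2 ^ kap X x * x.natAbs ≤ X := (Nat.mul_le_mul_left _ (le_max_left _ _)).trans h2
  have h4 : 2 ^ kap X x * 1 ≤ X := (Nat.mul_le_mul_left _ hm1).trans h2
  have e : ((x.natAbs : ℕ) : ℝ) = |(x : ℝ)| := by
    rw [Nat.cast_natAbs]
    push_cast
    rfl
  constructor
  · have h5 : ((2 ^ kap X x * x.natAbs : ℕ) : ℝ) ≤ X := by exact_mod_cast h3
    push_cast at h5
    rw [← e]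
    push_cast
    linarith
  · have h5 : ((2 ^ kap X x * 1 : ℕ) : ℝ) ≤ X := by exact_mod_cast h4
    push_cast at h5
    linarith

theorem kap_hi {X : ℕ} {x : ℤ} (hx0 : x ≠ 0) :
    (X : ℝ) ≤ 2 ^ (kap X x + 1) * |(x : ℝ)| := by
  have hn : 1 ≤ x.natAbs := Int.natAbs_pos.mpr hx0
  have hm : max x.natAbs 1 = x.natAbs := max_eq_left hn
  have h1 : X / x.natAbs < 2 ^ (kap X x + 1) := by
    unfold kap
    rw [hm]
    exact Nat.lt_pow_succ_log_self (by norm_num) _
  have h2 : X < 2 ^ (kap X x + 1) * x.natAbs := (Nat.div_lt_iff_lt_mul (by omega)).mp h1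
  have e : ((x.natAbs : ℕ) : ℝ) = |(x : ℝ)| := by
    rw [Nat.cast_natAbs]
    push_cast
    rfl
  have h3 : (X : ℝ) < ((2 ^ (kap X x + 1) * x.natAbs : ℕ) : ℝ) := by exact_mod_cast h2
  rw [← e]
  push_cast at h3 ⊢
  linarith

/-- The time of order `i + 1`. -/
noncomputable def sgm (M MT i : ℕ) (τ t : ℤ) : ℤ :=
  ⌊(M : ℝ) * ((((τ - t : ℤ)) : ℝ) / (2 * MT)) ^ (i + 1)⌋

theorem sgm_bd {M MT : ℕ} (hMT : 1 ≤ MT) (i : ℕ) {τ t : ℤ} (h1 : |τ| ≤ (MT : ℤ))
    (h2 : |t| ≤ (MT : ℤ)) : |sgm M MT i τ t| ≤ (M : ℤ) := by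
  have hMT0 : (0 : ℝ) < MT := by exact_mod_cast hMT
  have hM0 : (0 : ℝ) ≤ M := Nat.cast_nonneg M
  have e1 : |((τ : ℝ))| ≤ MT := by exact_mod_cast h1
  have e2 : |((t : ℝ))| ≤ MT := by exact_mod_cast h2
  obtain ⟨y, hy⟩ : ∃ y : ℝ, y = (((τ - t : ℤ)) : ℝ) / (2 * MT) := ⟨_, rfl⟩
  have hy1 : |y| ≤ 1 := by
    rw [hy, abs_div, abs_of_pos (by positivity : (0 : ℝ) < 2 * MT), div_le_one (by positivity)]
    push_cast
    exact (abs_sub _ _).trans (by linarith)
  have hy2 : |y ^ (i + 1)| ≤ 1 := by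
    rw [abs_pow]
    exact pow_le_one₀ (abs_nonneg _) hy1
  obtain ⟨a1, a2⟩ := abs_le.mp hy2
  unfold sgm
  rw [← hy, abs_le]
  constructor
  · rw [Int.le_floor]
    push_cast
    nlinarith
  · have : ((⌊(M : ℝ) * y ^ (i + 1)⌋ : ℤ) : ℝ) ≤ M := (Int.floor_le _).trans (by nlinarith)
    exact_mod_cast this

/-- The difference of two times of one shell and one sign with one value. -/
theorem sgm_fib {M MT : ℕ} (hM : 1 ≤ M) (hMT : 1 ≤ MT) (i : ℕ) {τ t t' : ℤ}
    (hs : sgm M MT i τ t = sgm M MT i τ t') (hk : kap (2 * MT) (τ - t) = kap (2 * MT) (τ - t'))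
    (hg : Int.sign (τ - t) = Int.sign (τ - t')) :
    |((t - t' : ℤ) : ℝ)| ≤ 2 * MT / M * 2 ^ ((kap (2 * MT) (τ - t) + 1) * i) := by
  have hMT0 : (0 : ℝ) < MT := by exact_mod_cast hMT
  have hM0 : (0 : ℝ) < M := by exact_mod_cast hM
  obtain ⟨x, hx⟩ : ∃ x : ℤ, x = τ - t := ⟨_, rfl⟩
  obtain ⟨x', hx'⟩ : ∃ x : ℤ, x = τ - t' := ⟨_, rfl⟩
  rw [← hx, ← hx'] at hk hg
  rw [← hx]
  have ed : |((t - t' : ℤ) : ℝ)| = |(x : ℝ) - x'| := by
    rw [hx, hx', ← abs_neg]
    congr 1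
    push_cast
    ring
  rw [ed]
  by_cases h0 : x = 0
  · have h0' : x' = 0 := by
      rw [h0, Int.sign_zero] at hg
      exact Int.sign_eq_zero_iff_zero.mp hg.symm
    rw [h0, h0']
    simp only [Int.cast_zero, sub_self, abs_zero]
    positivity
  · have h0' : x' ≠ 0 := by
      intro h
      rw [h, Int.sign_zero] at hg
      exact h0 (Int.sign_eq_zero_iff_zero.mp hg)
    obtain ⟨k, hkk⟩ : ∃ k, k = kap (2 * MT) x := ⟨_, rfl⟩
    have b1 := kap_hi (X := 2 * MT) h0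
    have b2 := kap_hi (X := 2 * MT) h0'
    rw [← hk] at b2
    rw [← hkk] at b1 b2 ⊢
    push_cast at b1 b2
    obtain ⟨c, hc⟩ : ∃ c : ℝ, c = 2 * MT / 2 ^ (k + 1) := ⟨_, rfl⟩
    have hc0 : 0 < c := by rw [hc]; positivity
    have c1 : c ≤ |(x : ℝ)| := by
      rw [hc, div_le_iff₀ (by positivity)]
      linarith
    have c2 : c ≤ |(x' : ℝ)| := by
      rw [hc, div_le_iff₀ (by positivity)]
      linarith
    have hsg : (0 < (x : ℝ) ∧ 0 < (x' : ℝ)) ∨ ((x : ℝ) < 0 ∧ (x' : ℝ) < 0) := by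
      rcases lt_or_gt_of_ne h0 with h | h
      · right
        have g : x' < 0 := by
          rw [Int.sign_eq_neg_one_of_neg h] at hg
          exact Int.sign_eq_neg_one_iff_neg.mp hg.symm
        exact ⟨by exact_mod_cast h, by exact_mod_cast g⟩
      · left
        have g : 0 < x' := by
          rw [Int.sign_eq_one_of_pos h] at hg
          exact Int.sign_eq_one_iff_pos.mp hg.symm
        exact ⟨by exact_mod_cast h, by exact_mod_cast g⟩
    have key := pow_sep hc0.le c1 c2 hsg i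
    -- the values
    have hv : |(M : ℝ) * ((x : ℝ) / (2 * MT)) ^ (i + 1) - M * ((x' : ℝ) / (2 * MT)) ^ (i + 1)| ≤
        1 := by
      unfold sgm at hs
      rw [← hx, ← hx'] at hs
      have f1 := Int.floor_le ((M : ℝ) * ((x : ℝ) / (2 * MT)) ^ (i + 1))
      have f2 := Int.lt_floor_add_one ((M : ℝ) * ((x : ℝ) / (2 * MT)) ^ (i + 1))
      have f3 := Int.floor_le ((M : ℝ) * ((x' : ℝ) / (2 * MT)) ^ (i + 1))
      have f4 := Int.lt_floor_add_one ((M : ℝ) * ((x' : ℝ) / (2 * MT)) ^ (i + 1))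
      rw [hs] at f1 f2
      rw [abs_le]
      constructor <;> linarith
    have hv2 : |(x : ℝ) ^ (i + 1) - (x' : ℝ) ^ (i + 1)| * M ≤ (2 * MT) ^ (i + 1) := by
      have e : (M : ℝ) * ((x : ℝ) / (2 * MT)) ^ (i + 1) - M * ((x' : ℝ) / (2 * MT)) ^ (i + 1) =
          ((x : ℝ) ^ (i + 1) - (x' : ℝ) ^ (i + 1)) * M / (2 * MT) ^ (i + 1) := by
        rw [div_pow, div_pow]
        ring
      rw [e, abs_div, abs_mul, abs_of_pos hM0,
        abs_of_pos (by positivity : (0 : ℝ) < (2 * MT) ^ (i + 1)),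
        div_le_one (by positivity)] at hv
      exact hv
    have e1 : |(x : ℝ) - x'| * c ^ i * M ≤ (2 * MT) ^ (i + 1) :=
      (mul_le_mul_of_nonneg_right key hM0.le).trans hv2
    have e2 : c ^ i = (2 * MT) ^ i / 2 ^ ((k + 1) * i) := by
      rw [hc, div_pow, ← pow_mul]
    rw [e2, pow_succ] at e1
    have hp1 : (0 : ℝ) < (2 * MT) ^ i := by positivity
    have hp2 : (0 : ℝ) < 2 ^ ((k + 1) * i) := by positivity
    have e3 : |(x : ℝ) - x'| * ((2 * MT) ^ i / 2 ^ ((k + 1) * i)) * M =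
        (2 * MT) ^ i * (|(x : ℝ) - x'| * M / 2 ^ ((k + 1) * i)) := by ring
    rw [e3] at e1
    have e4 := le_of_mul_le_mul_left e1 hp1
    rw [div_le_iff₀ hp2] at e4
    rw [div_mul_eq_mul_div, le_div_iff₀ hM0]
    exact e4

/-- Geometric weights. -/
theorem CH_geo {Ω ζ : Type} [Fintype Ω] {q : Ω → ℝ} (hq : IsLaw q) (k : Ω → ℕ) (Z : Ω → ζ) :
    CH q k Z ≤ Real.log 4 + Ex q (fun ω => (k ω : ℝ)) * (1 / 3) := by
  have hl : Real.log (4 / 3) ≤ 1 / 3 := by
    have := Real.log_le_sub_one_of_pos (by norm_num : (0 : ℝ) < 4 / 3)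
    linarith
  have h1 := CH_le_cross hq.nonneg hq.sum_one k Z (fun _ k => (1 / 4 : ℝ) * (3 / 4) ^ k)
    (fun ω _ => by positivity) (fun _ _ => by positivity) (fun ω _ F => by
      rw [← Finset.mul_sum]
      have hs : Summable (fun k : ℕ => ((3 : ℝ) / 4) ^ k) :=
        summable_geometric_of_lt_one (by norm_num) (by norm_num)
      have g1 := hs.sum_le_tsum F (fun k _ => by positivity)
      rw [tsum_geometric_of_lt_one (by norm_num) (by norm_num)] at g1
      have g2 : ((1 : ℝ) - 3 / 4)⁻¹ = 4 := by norm_num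
      rw [g2] at g1
      linarith)
  refine h1.trans ?_
  have h2 : Ex q (fun ω => -Real.log ((1 / 4 : ℝ) * (3 / 4) ^ (k ω))) ≤
      Ex q (fun ω => Real.log 4 + (1 / 3) * (k ω : ℝ)) := by
    refine Ex_mono hq.nonneg fun ω _ => ?_
    rw [Real.log_mul (by norm_num) (by positivity), Real.log_pow]
    have e1 : Real.log (1 / 4) = -Real.log 4 := by
      rw [one_div, Real.log_inv]
    have e2 : Real.log (3 / 4) = -Real.log (4 / 3) := by
      rw [← Real.log_inv]
      norm_num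
    rw [e1, e2]
    have hk : (0 : ℝ) ≤ k ω := Nat.cast_nonneg _
    have := mul_le_mul_of_nonneg_left hl hk
    linarith
  refine h2.trans (le_of_eq ?_)
  rw [Ex_add, Ex_const hq.sum_one, Ex_smul]
  ring

/-- The constants of the time of order `i + 1`. -/
noncomputable def cS (i : ℕ) : ℝ := Real.log 300 + i * Real.log 2 + 2 * (i + 1) * Real.log 40

/-- **The powers of the difference of two times are times of higher order.** -/
theorem sgm_sig {M MT : ℕ} (hM : 1 ≤ M) (hMM : M ≤ MT) (i : ℕ) :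
    SigP M MT (sgm M MT i) (2 * i + 3) (cS i) := by
  have hMT : 1 ≤ MT := hM.trans hMM
  have hMT0 : (0 : ℝ) < MT := by exact_mod_cast hMT
  have hM0 : (0 : ℝ) < M := by exact_mod_cast hM
  have hMr : (1 : ℝ) ≤ M := by exact_mod_cast hM
  have hMMr : (M : ℝ) ≤ MT := by exact_mod_cast hMM
  have hi0 : (0 : ℝ) ≤ i := Nat.cast_nonneg i
  have hl2 : 0 < Real.log 2 := Real.log_pos (by norm_num)
  have hl21 : Real.log 2 ≤ 0.7 := by
    have := Real.log_two_lt_d9
    linarith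
  have hl22 : 0.69 ≤ Real.log 2 := by
    have := Real.log_two_gt_d9
    linarith
  have hl40 : 0 ≤ Real.log 40 := Real.log_nonneg (by norm_num)
  have hl300 : 0 ≤ Real.log 300 := Real.log_nonneg (by norm_num)
  refine ⟨by linarith, by unfold cS; positivity, fun τ t h1 h2 => sgm_bd hMT i h1 h2, ?_⟩
  intro Ω ζ _ q hq T Z g hT hg
  have h0 := hq.nonneg
  obtain ⟨X, hX⟩ : ∃ X : ℕ, X = 2 * MT := ⟨_, rfl⟩
  have hX1 : 1 ≤ X := by omega
  have hXr : (X : ℝ) = 2 * MT := by rw [hX]; push_cast; rfl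
  have hX0 : (0 : ℝ) < X := by exact_mod_cast hX1
  obtain ⟨x, hx⟩ : ∃ x : Ω → ℤ, x = fun ω => g (Z ω) - T ω := ⟨_, rfl⟩
  obtain ⟨k, hk⟩ : ∃ k : Ω → ℕ, k = fun ω => kap X (x ω) := ⟨_, rfl⟩
  obtain ⟨sg, hsg⟩ : ∃ sg : Ω → ℤ, sg = fun ω => Int.sign (x ω) := ⟨_, rfl⟩
  obtain ⟨s, hs⟩ : ∃ s : Ω → ℤ, s = fun ω => sgm M MT i (g (Z ω)) (T ω) := ⟨_, rfl⟩
  rw [← hs]
  have hxb : ∀ ω, 0 < q ω → |x ω| ≤ (X : ℤ) := fun ω hω => by
    rw [hx, hX]
    push_cast
    have := abs_sub (g (Z ω)) (T ω)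
    have a1 := hT ω hω
    have a2 := hg ω hω
    linarith
  obtain ⟨E, hE⟩ : ∃ E : ℝ, E = Ex q (fun ω => (k ω : ℝ)) := ⟨_, rfl⟩
  have hE0 : 0 ≤ E := by
    rw [hE]
    exact Ex_nonneg h0 fun ω _ => Nat.cast_nonneg _
  have hlX : Real.log X = Real.log 2 + Real.log MT := by
    rw [hXr, Real.log_mul (by norm_num) hMT0.ne']
  -- the shells
  have hA : CH q T (fun ω => (k ω, Z ω)) ≤ Real.log (5 * X) - E * Real.log 2 := by
    refine (CH_le_int h0 hq.sum_one T (fun ω => (k ω, Z ω)) (fun ω => 2 * X / 2 ^ (k ω))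
      fun ω ω' hω hω' hz => ?_).trans ?_
    · have z1 : k ω = k ω' := (Prod.ext_iff.mp hz).1
      have z2 : Z ω = Z ω' := (Prod.ext_iff.mp hz).2
      obtain ⟨a1, -⟩ := kap_lo hX1 (hxb ω hω)
      obtain ⟨b1, -⟩ := kap_lo hX1 (hxb ω' hω')
      have ek : kap X (x ω) = k ω := by rw [hk]
      have ek' : kap X (x ω') = k ω := by rw [z1, hk]
      rw [ek] at a1
      rw [ek'] at b1
      have e : ((T ω - T ω' : ℤ) : ℝ) = (x ω' : ℝ) - x ω := by
        rw [hx]
        dsimp only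
        rw [z2]
        push_cast
        ring
      rw [e, le_div_iff₀ (by positivity)]
      have a2 := mul_le_mul_of_nonneg_right (abs_sub (x ω' : ℝ) (x ω))
        (by positivity : (0 : ℝ) ≤ 2 ^ (k ω))
      linarith
    · have h1 : Ex q (fun ω => Real.log (2 * (2 * X / 2 ^ (k ω)) + 1)) ≤
          Ex q (fun ω => Real.log (5 * X) - Real.log 2 * (k ω : ℝ)) := by
        refine Ex_mono h0 fun ω hω => ?_
        obtain ⟨-, b1⟩ := kap_lo hX1 (hxb ω hω)
        have ek : kap X (x ω) = k ω := by rw [hk]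
        rw [ek] at b1
        have e : Real.log (5 * X) - Real.log 2 * (k ω : ℝ) = Real.log (5 * X / 2 ^ (k ω)) := by
          rw [Real.log_div (by positivity) (by positivity), Real.log_pow]
          ring
        rw [e]
        refine Real.log_le_log (by positivity) ?_
        rw [le_div_iff₀ (by positivity)]
        have e2 : (2 * (2 * (X : ℝ) / 2 ^ (k ω)) + 1) * 2 ^ (k ω) = 4 * X + 2 ^ (k ω) := by
          field_simp
          ring
        rw [e2]
        linarith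
      refine h1.trans (le_of_eq ?_)
      rw [Ex_sub, Ex_const hq.sum_one, Ex_smul, hE]
      ring
  have hK := CH_geo hq k Z
  rw [← hE] at hK
  have hTk : CH q T Z ≤ CH q k Z + CH q T (fun ω => (k ω, Z ω)) := CH_le_add h0 T k Z
  have h5X : Real.log (5 * X) = Real.log 5 + Real.log 2 + Real.log MT := by
    rw [Real.log_mul (by norm_num) hX0.ne', hlX]
    ring
  have h40 : Real.log 40 = Real.log 4 + Real.log 5 + Real.log 2 := by
    rw [← Real.log_mul (by norm_num) (by norm_num), ← Real.log_mul (by norm_num) (by norm_num)]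
    norm_num
  have hlMT : Real.log MT ≤ Real.log (2 * MT + 1) := Real.log_le_log hMT0 (by linarith)
  obtain ⟨d, hd⟩ : ∃ d : ℝ, d = Real.log (2 * MT + 1) - CH q T Z := ⟨_, rfl⟩
  have hE1 : E * (Real.log 2 - 1 / 3) ≤ Real.log 40 + d := by linarith
  have hE2 : 0.356 * E ≤ Real.log 40 + d := by
    have : E * 0.356 ≤ E * (Real.log 2 - 1 / 3) := mul_le_mul_of_nonneg_left (by linarith) hE0
    linarith
  -- the sign
  have hS : ∀ {U : Type} (W : Ω → U), CH q sg W ≤ Real.log 5 := by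
    intro U W
    refine CH_int_const hq sg W (B := 2) (fun ω ω' _ _ _ => ?_) (by norm_num) (by norm_num)
    have b : ∀ y : ℤ, |Int.sign y| ≤ 1 := fun y => by
      rcases Int.sign_trichotomy y with h | h | h <;> rw [h] <;> decide
    have g1 : |((sg ω : ℤ) : ℝ)| ≤ 1 := by
      rw [hsg]
      exact_mod_cast b (x ω)
    have g2 : |((sg ω' : ℤ) : ℝ)| ≤ 1 := by
      rw [hsg]
      exact_mod_cast b (x ω')
    push_cast
    exact (abs_sub _ _).trans (by linarith)
  -- the fibres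
  have hD : CH q T (fun ω => ((s ω, (k ω, sg ω)), Z ω)) ≤
      Real.log 3 + (Real.log X - Real.log M) + (E + 1) * i * Real.log 2 := by
    refine (CH_le_int h0 hq.sum_one T (fun ω => ((s ω, (k ω, sg ω)), Z ω))
      (fun ω => 2 * MT / M * 2 ^ ((k ω + 1) * i)) fun ω ω' _ _ hz => ?_).trans ?_
    · have z := Prod.ext_iff.mp hz
      have z2 : Z ω = Z ω' := z.2
      have z3 : s ω = s ω' := (Prod.ext_iff.mp z.1).1
      have z4 : k ω = k ω' := (Prod.ext_iff.mp (Prod.ext_iff.mp z.1).2).1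
      have z5 : sg ω = sg ω' := (Prod.ext_iff.mp (Prod.ext_iff.mp z.1).2).2
      rw [hs] at z3
      rw [hk, hx, hX] at z4
      rw [hsg, hx] at z5
      dsimp only at z3 z4 z5
      rw [← z2] at z3 z4 z5
      have := sgm_fib hM hMT i z3 z4 z5
      rw [hk, hx, hX]
      exact this
    · have h1 : Ex q (fun ω => Real.log (2 * (2 * MT / M * 2 ^ ((k ω + 1) * i)) + 1)) ≤
          Ex q (fun ω => (Real.log 3 + (Real.log X - Real.log M) + i * Real.log 2) +
            i * Real.log 2 * (k ω : ℝ)) := by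
        refine Ex_mono h0 fun ω hω => ?_
        have h2 : (1 : ℝ) ≤ 2 ^ ((k ω + 1) * i) := one_le_pow₀ (by norm_num)
        have h3 : (1 : ℝ) ≤ 2 * MT / M := by
          rw [le_div_iff₀ hM0]
          linarith
        have h4 : (1 : ℝ) ≤ 2 * MT / M * 2 ^ ((k ω + 1) * i) := by nlinarith
        have e : (Real.log 3 + (Real.log X - Real.log M) + i * Real.log 2) +
            i * Real.log 2 * (k ω : ℝ) = Real.log (3 * (2 * MT / M * 2 ^ ((k ω + 1) * i))) := by
          rw [Real.log_mul (by norm_num) (by positivity), Real.log_mul (by positivity)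
            (by positivity), Real.log_pow, Real.log_div (by positivity) hM0.ne', ← hXr]
          push_cast
          ring
        rw [e]
        exact Real.log_le_log (by positivity) (by linarith)
      refine h1.trans (le_of_eq ?_)
      rw [Ex_add, Ex_const hq.sum_one, Ex_smul, hE]
      ring
  -- together
  have c1 : CH q T Z ≤ CH q (fun ω => (s ω, (k ω, sg ω))) Z +
      CH q T (fun ω => ((s ω, (k ω, sg ω)), Z ω)) := CH_le_add h0 T _ Z
  have c2 := CH_subadd h0 s (fun ω => (k ω, sg ω)) Z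
  have c3 := CH_subadd h0 k sg Z
  have c4 := hS Z
  have hl3 : Real.log (2 * M + 1) ≤ Real.log 3 + Real.log M := by
    rw [← Real.log_mul (by norm_num) hM0.ne']
    exact Real.log_le_log (by positivity) (by linarith)
  have h300 : Real.log 300 = Real.log 4 + Real.log 5 + Real.log 3 + Real.log 3 + Real.log (5 / 3) := by
    rw [← Real.log_mul (by norm_num) (by norm_num), ← Real.log_mul (by norm_num) (by norm_num),
      ← Real.log_mul (by norm_num) (by norm_num), ← Real.log_mul (by norm_num) (by norm_num)]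
    norm_num
  have h53 : 0 ≤ Real.log (5 / 3) := Real.log_nonneg (by norm_num)
  have hX' : Real.log X ≤ Real.log (2 * MT + 1) := Real.log_le_log hX0 (by linarith)
  have hfin : E * (1 / 3 + i * Real.log 2) ≤ 2 * (i + 1) * (Real.log 40 + d) := by
    have g1 : 1 / 3 + i * Real.log 2 ≤ (i + 1) * 0.7 := by nlinarith
    have g2 := mul_le_mul_of_nonneg_left g1 hE0
    have g3 : 2 * ((i : ℝ) + 1) * (0.356 * E) ≤ 2 * (i + 1) * (Real.log 40 + d) :=
      mul_le_mul_of_nonneg_left hE2 (by positivity)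
    nlinarith
  unfold cS
  rw [← hd]
  have e5 : (2 * (i : ℝ) + 3) * d + (Real.log 300 + i * Real.log 2 + 2 * (i + 1) * Real.log 40) =
      d + Real.log 300 + i * Real.log 2 + 2 * (i + 1) * (Real.log 40 + d) := by ring
  rw [e5]
  have e6 : E * (1 / 3) + (E + 1) * i * Real.log 2 = E * (1 / 3 + i * Real.log 2) +
      i * Real.log 2 := by ring
  linarith

end Pool.PS46
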