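import Pool.Agent.H46.PS.Pks
import Pool.Agent.H46.PS.Lf2
import Pool.Agent.H46.PR.Tep

/-!
# The slope of a tie at explicit constants, times of higher order
-/

set_option autoImplicit false

namespace Pool.PS46

open Finset Real
open Pool.Agent.H49.Ent Pool.Agent.H32.Dense Pool.STK Pool.OWN68 Pool.PR46
open Pool.BFL (Pb)

/-- **The height is full on the leaf**, times of higher order. -/
theorem leaf_t {Ω Λ Γ 𝒞 𝒟 𝒩 : Type} [Fintype Ω] {p : Ω → ℝ} (hp : IsLaw p) {M MT K r : ℕ}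
    {σ : ℤ → ℤ → ℤ} (hM : 1 ≤ M) (hr : 1 ≤ r) (hrM : r ≤ M) {L : Ω → Λ} {t : Ω → ℤ} {G : Ω → Γ}
    {C : Λ → 𝒞} {D : Λ → 𝒟} {N : Λ → 𝒩} {u n : Λ → ℤ → ℤ} {du dn : 𝒟 → ℝ} {ks : Λ → ℝ} {e : ℝ}
    (he : 0 ≤ e) (hrec : Recs p M MT σ e L t G G C D N N)
    (hd : Disp p M MT K σ L t G D u n du dn)
    {κ B η : ℝ} (hB : 0 < B) (hkb : ∀ ω, 0 < p ω → |ks (L ω)| ≤ κ) (hrK : (K : ℝ) * (2 + κ) ≤ r)
    (hgd : Pb (glue p p G G) (fun w => ¬ Alg M r B L D du dn ks w) ≤ η)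
    {R : ℝ} (hR : 2 ≤ R) (hRη : R * η ≤ 1 / 2) {q : Ω → ℝ} (hq : IsLaw q)
    (hqd : ∀ ω, q ω ≤ R * p ω) :
    Real.log (2 * M + 1) - lsF M K B R η e ≤
      CH q (fun ω => u (L ω) (t ω)) (VV M r L t C (fun _ => ()) u n ks) := by
  have h1 := leaf_full hp hM hr hrM hrec hd hB hkb hrK hgd (by linarith : 1 ≤ R) hRη hq hqd
  have h2 : CH q (fun ω => u (L ω) (t ω)) (fun ω => (u (L ω) (t ω) / (M : ℤ),
      (leaf M r L t u n ks ω, (t ω, (C (L ω), N (L ω)))))) ≤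
      CH q (fun ω => u (L ω) (t ω)) (VV M r L t C (fun _ => ()) u n ks) :=
    CH_mono_cond hq.nonneg fun ω ω' _ _ z => by
      have z1 := Prod.ext_iff.mp z
      have z2 := Prod.ext_iff.mp z1.2
      have z3 := Prod.ext_iff.mp z2.2
      have z4 := Prod.ext_iff.mp z3.2
      exact Prod.ext z1.1 (Prod.ext z2.1 (Prod.ext z3.1 (Prod.ext z4.1 rfl)))
  have h5 : 0 ≤ R * (e + Real.log 2) := by
    have : 0 ≤ Real.log 2 := Real.log_nonneg (by norm_num)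
    have hR0 : 0 ≤ R := by linarith
    positivity
  unfold lsF lsE
  linarith

end Pool.PS46
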